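import Pool.Agent.Helper1.RG.Defs

/-! Project RG, row H2: the product inequality of Host. -/

set_option autoImplicit false

open MeasureTheory Complex
open scoped ComplexConjugate

namespace Pool.Agent.Helper1.RG

lemma h2_ev_norm (x : ℂ) (χ : Om) : ‖ev x χ‖ = 1 := by
  unfold ev; exact Circle.norm_coe _

lemma h2_ev_add (x y : ℂ) (χ : Om) : ev (x + y) χ = ev x χ * ev y χ := by
  unfold ev; rw [AddChar.map_add_eq_mul]; simp

lemma h2_ev_zero (χ : Om) : ev 0 χ = 1 := by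
  unfold ev; rw [AddChar.map_zero_eq_one]; simp

lemma h2_ev_meas {S : Set ℂ} {x : ℂ} (hx : x ∈ S) : Measurable[sig S] (ev x) := by
  have h1 : Measurable[sig S] (fun (χ : Om) (x : S) => ev (x : ℂ) χ) := comap_measurable _
  exact (measurable_pi_apply (⟨x, hx⟩ : S)).comp h1

lemma h2_ev_meas' (x : ℂ) : Measurable (ev x) := h2_ev_meas (Set.mem_univ x)

lemma h2_int {P : Measure Om} [IsProbabilityMeasure P] {f : Om → ℂ} (hf : Measurable f) {C : ℝ}
    (hC : ∀ χ, ‖f χ‖ ≤ C) : Integrable f P :=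
  Integrable.of_bound hf.aestronglyMeasurable C (Filter.Eventually.of_forall hC)

/-- pull out -/
lemma h2_pull {P : Measure Om} [IsProbabilityMeasure P] {m : MeasurableSpace Om}
    (hm : m ≤ instMeasOm) {f g : Om → ℂ} (hf : Measurable[m] f) (hg : Measurable[instMeasOm] g)
    {C D : ℝ}
    (hC : ∀ χ, ‖f χ‖ ≤ C) (hD : ∀ χ, ‖g χ‖ ≤ D) :
    P[fun χ => f χ * g χ | m] =ᵐ[P] fun χ => f χ * (P[g | m]) χ := by
  have hC0 : 0 ≤ C := le_trans (norm_nonneg _) (hC (0 : Om))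
  have h1 : Integrable (fun χ => f χ * g χ) P := by
    refine h2_int ((hf.mono hm le_rfl).mul hg) (C := C * D) ?_
    intro χ
    rw [norm_mul]
    exact mul_le_mul (hC χ) (hD χ) (norm_nonneg _) hC0
  have h2 := condExp_bilin_of_stronglyMeasurable_left (μ := P) (m := m)
    (ContinuousLinearMap.mul ℝ ℂ) (f := f) (g := g) (hf.stronglyMeasurable) (by simpa using h1)
    (h2_int hg hD)
  simpa using h2

lemma h2_mono (hFIL : ST_FIL) : Monotone Fil :=
  monotone_nat_of_le_succ fun j => (hFIL j).1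

lemma h2_le (hFIL : ST_FIL) (j : ℕ) : Fil j ≤ instMeasOm :=
  le_trans (hFIL j).1 (hFIL j).2.1

lemma h2_Rmono (hA1 : ST_A1) {i j : ℕ} (h : i ≤ j) {x : ℂ} (hx : x ∈ Rj i) : x ∈ Rj j := by
  obtain ⟨_, _, _, _, _, h6, _⟩ := hA1
  induction h with
  | refl => exact hx
  | step _ ih => exact h6 _ _ ih

lemma h2_mem (hA1 : ST_A1) {L j : ℕ} (h : j < L) (a : ℕ) : (a : ℂ) * xj j ∈ Rj L := by
  have hA := hA1
  obtain ⟨h1, _, _, _, _, _, _, h8, _, _, h11, _⟩ := hA1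
  refine h2_Rmono hA (i := j + 1) h ?_
  refine h8 _ _ (h1 _ ⟨a, 0, by simp⟩) _ (h11 j)

lemma h2_zero_mem (hA1 : ST_A1) (L : ℕ) : (0 : ℂ) ∈ Rj L := by
  obtain ⟨_, _, _, _, _, _, h7, _, _, h10, _⟩ := hA1
  have := (h7 L _ (h10 L) _ (h10 L)).2
  simpa using this

lemma h2_sum_mem (hA1 : ST_A1) {L : ℕ} (a : Fin L → Fin 5) :
    (∑ j : Fin L, ((a j : ℕ) : ℂ) * xj j) ∈ Rj L := by
  refine Finset.sum_induction _ (fun x => x ∈ Rj L) ?_ (h2_zero_mem hA1 L) ?_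
  · intro x y hx hy
    obtain ⟨_, _, _, _, _, _, h7, _⟩ := hA1
    exact (h7 L x hx y hy).1
  · intro j _
    exact h2_mem hA1 j.2 _

lemma h2_pj_meas (hA1 : ST_A1) (hFIL : ST_FIL) (P : Measure Om) (j : ℕ) :
    Measurable[Fil (j + 1)] (pj P j) := by
  have h1 : ∀ a : ℕ, Measurable[Fil (j + 1)] (ev ((a : ℂ) * xj j)) := fun a =>
    h2_ev_meas (h2_mem hA1 (Nat.lt_succ_self j) a)
  have h2 : ∀ a : ℕ, Measurable[Fil (j + 1)] (P[ev ((a : ℂ) * xj j) | Fil j]) := fun a =>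
    (stronglyMeasurable_condExp.measurable).mono (hFIL j).1 le_rfl
  unfold pj pp
  refine Measurable.const_mul ?_ _
  refine Finset.measurable_sum _ (fun a _ => ?_)
  refine Complex.measurable_re.comp ?_
  exact (Complex.continuous_conj.measurable.comp (h1 a)).mul (h2 a)

lemma h2_cond (hA1 : ST_A1) (hFIL : ST_FIL) (j : ℕ) :
    Fil j ≤ Fil (j + 1) ∧ Fil (j + 1) ≤ instMeasOm ∧ Measurable[Fil j] (ev (5 * xj j)) ∧
    Fil (j + 1) = Fil j ⊔ MeasurableSpace.comap (ev (xj j)) (borel ℂ) := by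
  refine ⟨(hFIL j).1, (hFIL j).2.1, ?_, (hFIL j).2.2⟩
  obtain ⟨_, _, _, _, _, _, _, _, _, _, _, h12⟩ := hA1
  exact h2_ev_meas (h12 j)

lemma h2_pj01 (hA1 : ST_A1) (hFIL : ST_FIL) (hL1 : ST_L1) (P : Measure Om)
    [IsProbabilityMeasure P] : ∀ᵐ χ ∂P, ∀ j, 0 ≤ pj P j χ ∧ pj P j χ ≤ 1 := by
  rw [ae_all_iff]
  intro j
  obtain ⟨h1, h2, h3, h4⟩ := h2_cond hA1 hFIL j
  exact (hL1 P inferInstance (Fil j) (Fil (j + 1)) (xj j) h1 h2 h3 h4).1

lemma h2_W_meas (hA1 : ST_A1) (hFIL : ST_FIL) (P : Measure Om) (L : ℕ) :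
    Measurable[Fil L] (fun χ => ∏ j ∈ Finset.range L, pj P j χ) := by
  refine Finset.measurable_prod _ (fun j hj => ?_)
  rw [Finset.mem_range] at hj
  exact (h2_pj_meas hA1 hFIL P j).mono (h2_mono hFIL hj) le_rfl

theorem h2_gen (hA1 : ST_A1) (hFIL : ST_FIL) (hL1 : ST_L1) (P : Measure Om)
    [IsProbabilityMeasure P] : ∀ (L : ℕ) (Z : Om → ℂ) (C : ℝ), Measurable[Fil L] Z →
    (∀ χ, ‖Z χ‖ ≤ C) →
    ∑ a : Fin L → Fin 5,
      ∫ χ, ‖(P[fun χ => ev (∑ j : Fin L, ((a j : ℕ) : ℂ) * xj j) χ * Z χ | Fil 0]) χ‖ ^ 2 ∂P =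
    5 ^ L * ∫ χ, ‖Z χ‖ ^ 2 * ∏ j ∈ Finset.range L, pj P j χ ∂P := by
  intro L
  induction L with
  | zero =>
    intro Z C hZ hC
    have h0 := h2_le hFIL 0
    have h1 : ∀ a : Fin 0 → Fin 5,
        (fun χ => ev (∑ j : Fin 0, ((a j : ℕ) : ℂ) * xj j) χ * Z χ) = Z := by
      intro a
      funext χ
      simp [h2_ev_zero]
    have hsm : StronglyMeasurable[Fil 0] Z := hZ.stronglyMeasurable
    have h2 : P[Z | Fil 0] = Z :=
      condExp_of_stronglyMeasurable h0 hsm (h2_int (hZ.mono h0 le_rfl) hC)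
    simp_rw [h1, h2]
    simp
  | succ L ih =>
    intro Z C hZ hC
    have hC0 : 0 ≤ C := le_trans (norm_nonneg _) (hC (0 : Om))
    obtain ⟨c1, c2, c3, c4⟩ := h2_cond hA1 hFIL L
    have hL : Fil L ≤ instMeasOm := le_trans c1 c2
    have hZ' : Measurable Z := hZ.mono c2 le_rfl
    have h01 := h2_pj01 hA1 hFIL hL1 P
    set W : Om → ℝ := fun χ => ∏ j ∈ Finset.range L, pj P j χ with hW
    have hWm : Measurable[Fil L] W := h2_W_meas hA1 hFIL P L
    set V : Om → ℝ := fun χ => Real.sqrt (max 0 (min (W χ) 1)) with hV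
    have hVm : Measurable[Fil L] V :=
      Real.continuous_sqrt.measurable.comp (measurable_const.max (hWm.min measurable_const))
    have hV0 : ∀ χ, 0 ≤ V χ := fun χ => Real.sqrt_nonneg _
    have hV1 : ∀ χ, V χ ≤ 1 := fun χ => by
      rw [hV]
      simp only
      rw [Real.sqrt_le_one]
      exact max_le zero_le_one (min_le_right _ _)
    have hVW : ∀ᵐ χ ∂P, V χ ^ 2 = W χ := by
      filter_upwards [h01] with χ hχ
      have hw0 : 0 ≤ W χ := Finset.prod_nonneg fun j _ => (hχ j).1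
      have hw1 : W χ ≤ 1 := Finset.prod_le_one (fun j _ => (hχ j).1) fun j _ => (hχ j).2
      rw [hV]
      simp only
      rw [Real.sq_sqrt (le_max_left _ _), min_eq_left hw1, max_eq_right hw0]
    -- the conditional expectations, truncated
    set Y : ℕ → Om → ℂ := fun b => P[fun χ => ev ((b : ℂ) * xj L) χ * Z χ | Fil L] with hY
    have hYm : ∀ b, Measurable[Fil L] (Y b) := fun b => stronglyMeasurable_condExp.measurable
    have hgb : ∀ (b : ℕ) (χ : Om), ‖ev ((b : ℂ) * xj L) χ * Z χ‖ ≤ C := by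
      intro b χ
      rw [norm_mul, h2_ev_norm, one_mul]
      exact hC χ
    have hgm : ∀ b : ℕ, Measurable (fun χ => ev ((b : ℂ) * xj L) χ * Z χ) := fun b =>
      (h2_ev_meas' _).mul hZ'
    have hYb : ∀ b, ∀ᵐ χ ∂P, ‖Y b χ‖ ≤ C := fun b =>
      ae_bdd_norm_condExp_of_ae_bdd_norm (Filter.Eventually.of_forall (hgb b))
    classical
    set Zt : ℕ → Om → ℂ := fun b χ => if ‖Y b χ‖ ≤ C then Y b χ else 0 with hZt
    have hZtm : ∀ b, Measurable[Fil L] (Zt b) := by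
      intro b
      have hn : Measurable[Fil L] (fun χ => ‖Y b χ‖) := continuous_norm.measurable.comp (hYm b)
      have hs : MeasurableSet[Fil L] {χ | ‖Y b χ‖ ≤ C} := hn measurableSet_Iic
      exact Measurable.ite hs (hYm b) measurable_const
    have hZtb : ∀ b χ, ‖Zt b χ‖ ≤ C := by
      intro b χ
      simp only [hZt]
      split_ifs with h
      · exact h
      · rw [norm_zero]; exact hC0
    have hZtY : ∀ b, Zt b =ᵐ[P] Y b := by
      intro b
      filter_upwards [hYb b] with χ hχ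
      simp only [hZt]
      rw [if_pos hχ]
    -- the tower property
    have htow : ∀ (b : ℕ) (s : ℂ), s ∈ Rj L →
        P[fun χ => ev (s + (b : ℂ) * xj L) χ * Z χ | Fil 0] =ᵐ[P]
          P[fun χ => ev s χ * Zt b χ | Fil 0] := by
      intro b s hs
      have e1 : (fun χ => ev (s + (b : ℂ) * xj L) χ * Z χ) =
          fun χ => ev s χ * (ev ((b : ℂ) * xj L) χ * Z χ) := by
        funext χ
        rw [h2_ev_add, mul_assoc]
      rw [e1]
      have e2 : P[fun χ => ev s χ * (ev ((b : ℂ) * xj L) χ * Z χ) | Fil L] =ᵐ[P]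
          fun χ => ev s χ * Y b χ :=
        h2_pull hL (h2_ev_meas hs) (hgm b) (C := 1) (D := C)
          (fun χ => (h2_ev_norm s χ).le) (hgb b)
      have e3 : P[P[fun χ => ev s χ * (ev ((b : ℂ) * xj L) χ * Z χ) | Fil L] | Fil 0] =ᵐ[P]
          P[fun χ => ev s χ * (ev ((b : ℂ) * xj L) χ * Z χ) | Fil 0] :=
        condExp_condExp_of_le (h2_mono hFIL (Nat.zero_le L)) hL
      refine e3.symm.trans (condExp_congr_ae (e2.trans ?_))
      filter_upwards [hZtY b] with χ hχ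
      rw [hχ]
    -- split the sum
    have hsplit : ∑ a : Fin (L + 1) → Fin 5,
        ∫ χ, ‖(P[fun χ => ev (∑ j : Fin (L + 1), ((a j : ℕ) : ℂ) * xj j) χ * Z χ | Fil 0]) χ‖ ^ 2 ∂P
        = ∑ b : Fin 5, ∑ a : Fin L → Fin 5,
          ∫ χ, ‖(P[fun χ => ev (∑ j : Fin L, ((a j : ℕ) : ℂ) * xj j) χ * Zt b χ | Fil 0]) χ‖ ^ 2
            ∂P := by
      rw [← (Fin.snocEquiv (fun _ : Fin (L + 1) => Fin 5)).sum_comp, Fintype.sum_prod_type]
      refine Finset.sum_congr rfl fun b _ => Finset.sum_congr rfl fun a _ => ?_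
      have e1 : (∑ j : Fin (L + 1), (((Fin.snocEquiv (fun _ : Fin (L + 1) => Fin 5) (b, a)) j : ℕ) : ℂ)
          * xj j) = (∑ j : Fin L, ((a j : ℕ) : ℂ) * xj j) + ((b : ℕ) : ℂ) * xj L := by
        rw [Fin.sum_univ_castSucc]
        simp [Fin.snocEquiv]
      rw [e1]
      refine integral_congr_ae ?_
      filter_upwards [htow b _ (h2_sum_mem hA1 a)] with χ hχ
      rw [hχ]
    rw [hsplit]
    have h5 : ∀ b : Fin 5, ∑ a : Fin L → Fin 5,
          ∫ χ, ‖(P[fun χ => ev (∑ j : Fin L, ((a j : ℕ) : ℂ) * xj j) χ * Zt b χ | Fil 0]) χ‖ ^ 2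
            ∂P = 5 ^ L * ∫ χ, ‖Zt b χ‖ ^ 2 * W χ ∂P := fun b =>
      ih (Zt b) C (hZtm b) (hZtb b)
    simp_rw [h5]
    rw [← Finset.mul_sum]
    -- L1 for Z * V
    have hZV : Measurable[Fil (L + 1)] (fun χ => Z χ * ((V χ : ℝ) : ℂ)) :=
      hZ.mul (Complex.measurable_ofReal.comp (hVm.mono c1 le_rfl))
    have hZVb : ∀ χ, ‖Z χ * ((V χ : ℝ) : ℂ)‖ ≤ C := by
      intro χ
      rw [norm_mul, Complex.norm_real, Real.norm_eq_abs, abs_of_nonneg (hV0 χ)]
      calc ‖Z χ‖ * V χ ≤ C * 1 := mul_le_mul (hC χ) (hV1 χ) (hV0 χ) hC0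
        _ = C := mul_one C
    have hL1' := (hL1 P inferInstance (Fil L) (Fil (L + 1)) (xj L) c1 c2 c3 c4).2
      (fun χ => Z χ * ((V χ : ℝ) : ℂ)) C hZV hZVb
    rw [Finset.sum_range] at hL1'
    have h6 : ∀ b : Fin 5, ∫ χ, ‖(P[fun χ => ev (((b : ℕ) : ℂ) * xj L) χ *
        (Z χ * ((V χ : ℝ) : ℂ)) | Fil L]) χ‖ ^ 2 ∂P = ∫ χ, ‖Zt b χ‖ ^ 2 * W χ ∂P := by
      intro b
      refine integral_congr_ae ?_
      have e1 : (fun χ => ev (((b : ℕ) : ℂ) * xj L) χ * (Z χ * ((V χ : ℝ) : ℂ))) =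
          fun χ => ((V χ : ℝ) : ℂ) * (ev (((b : ℕ) : ℂ) * xj L) χ * Z χ) := by
        funext χ; ring
      rw [e1]
      have e2 := h2_pull (P := P) hL (f := fun χ => ((V χ : ℝ) : ℂ))
        (g := fun χ => ev (((b : ℕ) : ℂ) * xj L) χ * Z χ)
        (Complex.measurable_ofReal.comp hVm) (hgm b) (C := 1) (D := C)
        (fun χ => by
          rw [Complex.norm_real, Real.norm_eq_abs, abs_of_nonneg (hV0 χ)]; exact hV1 χ) (hgb b)
      filter_upwards [e2, hZtY b, hVW] with χ hχ1 hχ2 hχ3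
      rw [hχ1, hχ2, norm_mul, Complex.norm_real, Real.norm_eq_abs, mul_pow, sq_abs, hχ3]
      rw [mul_comm]
    simp_rw [h6] at hL1'
    rw [hL1']
    have h7 : ∫ χ, ‖Z χ * ((V χ : ℝ) : ℂ)‖ ^ 2 * pp P (Fil L) (xj L) χ ∂P =
        ∫ χ, ‖Z χ‖ ^ 2 * ∏ j ∈ Finset.range (L + 1), pj P j χ ∂P := by
      refine integral_congr_ae ?_
      filter_upwards [hVW] with χ hχ
      rw [norm_mul, Complex.norm_real, Real.norm_eq_abs, mul_pow, sq_abs, hχ,
        Finset.prod_range_succ]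
      simp only [hW, pj]
      ring
    rw [h7]
    ring

theorem st_H2 (hA1 : ST_A1) (hFIL : ST_FIL) (hL1 : ST_L1) : ST_H2 := by
  intro P hP L
  have h := h2_gen hA1 hFIL hL1 P L (fun _ => 1) 1 measurable_const (fun χ => by simp)
  simp only [mul_one, norm_one, one_pow, one_mul] at h
  exact h.le

end Pool.Agent.Helper1.RG
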